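import Mathlib
import Pool.Agent.X332.OR.Seq

/-!
Rational functions along an orbit of a rational self-map of an affine variety.
-/

set_option autoImplicit false

namespace Pool.Agent.X332.OR

open MvPolynomial Filter Pool.Agent.TH143.DE

variable {D : ℕ}

/-- The points `t 0, t 1, …` of the affine variety `T` with the prime ideal `𝔱` form an orbit of a
rational map from `T` to `T`, given by the quotients `F i / G i`, and every proper closed subset of
`T` contains only finitely many terms of the sequence. -/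
structure Orbit (𝔱 : Ideal (MvPolynomial (Fin D) ℂ)) (t : ℕ → Fin D → ℂ) : Prop where
  prime : 𝔱.IsPrime
  mem : ∀ m, ∀ P ∈ 𝔱, eval (t m) P = 0
  step : ∃ F G : Fin D → MvPolynomial (Fin D) ℂ, (∀ i, G i ∉ 𝔱) ∧
    ∀ m i, t (m + 1) i * eval (t m) (G i) = eval (t m) (F i)
  gen : ∀ P, P ∉ 𝔱 → {m | eval (t m) P = 0}.Finite

variable {𝔱 : Ideal (MvPolynomial (Fin D) ℂ)} {t : ℕ → Fin D → ℂ}

theorem Orbit.ev_ne (h : Orbit 𝔱 t) {R : MvPolynomial (Fin D) ℂ} (hR : R ∉ 𝔱) :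
    ∀ᶠ m in atTop, eval (t m) R ≠ 0 := by
  have h3 := (h.gen R hR).compl_mem_cofinite
  rw [Nat.cofinite_eq_atTop] at h3
  exact h3

theorem Orbit.mul_notMem (h : Orbit 𝔱 t) {R R' : MvPolynomial (Fin D) ℂ} (hR : R ∉ 𝔱)
    (hR' : R' ∉ 𝔱) : R * R' ∉ 𝔱 := fun hm =>
  (h.prime.mem_or_mem hm).elim hR hR'

/-- the sequences which are given, from some index on, by rational functions of `t m` -/
def coef (h : Orbit 𝔱 t) : Subalgebra ℂ (ℕ → ℂ) where
  carrier := {f | ∃ P R : MvPolynomial (Fin D) ℂ, R ∉ 𝔱 ∧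
    ∀ᶠ m in atTop, f m = eval (t m) P / eval (t m) R}
  mul_mem' := by
    rintro f g ⟨P, R, hR, hf⟩ ⟨P', R', hR', hg⟩
    refine ⟨P * P', R * R', h.mul_notMem hR hR', ?_⟩
    filter_upwards [hf, hg] with m h1 h2
    rw [Pi.mul_apply, h1, h2, map_mul, map_mul, div_mul_div_comm]
  add_mem' := by
    rintro f g ⟨P, R, hR, hf⟩ ⟨P', R', hR', hg⟩
    refine ⟨P * R' + R * P', R * R', h.mul_notMem hR hR', ?_⟩
    filter_upwards [hf, hg, h.ev_ne hR, h.ev_ne hR'] with m h1 h2 h3 h4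
    rw [Pi.add_apply, h1, h2, div_add_div _ _ h3 h4]
    simp only [map_add, map_mul]
  algebraMap_mem' := fun c => ⟨C c, 1, fun h1 => h.prime.ne_top ((Ideal.eq_top_iff_one _).2 h1),
    Eventually.of_forall fun m => by
      rw [eval_C, map_one, div_one]
      rfl⟩

theorem poly_mem (h : Orbit 𝔱 t) (P : MvPolynomial (Fin D) ℂ) :
    (fun m => eval (t m) P) ∈ coef h :=
  ⟨P, 1, fun h1 => h.prime.ne_top ((Ideal.eq_top_iff_one _).2 h1),
    Eventually.of_forall fun m => by rw [map_one, div_one]⟩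

theorem mem_congr (h : Orbit 𝔱 t) {f g : ℕ → ℂ} (hf : f ∈ coef h)
    (hfg : ∀ᶠ m in atTop, g m = f m) : g ∈ coef h := by
  obtain ⟨P, R, hR, h1⟩ := hf
  refine ⟨P, R, hR, ?_⟩
  filter_upwards [h1, hfg] with m h2 h3
  rw [h3, h2]

theorem inv_mem (h : Orbit 𝔱 t) {f : ℕ → ℂ} (hf : f ∈ coef h) : (fun m => (f m)⁻¹) ∈ coef h := by
  obtain ⟨P, R, hR, hf⟩ := hf
  by_cases hP : P ∈ 𝔱
  · refine ⟨0, 1, fun h1 => h.prime.ne_top ((Ideal.eq_top_iff_one _).2 h1), ?_⟩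
    filter_upwards [hf] with m hm
    rw [hm, h.mem m P hP, zero_div, inv_zero, map_zero, zero_div]
  · refine ⟨R, P, hP, ?_⟩
    filter_upwards [hf] with m hm
    rw [hm, inv_div]

theorem shift_coord (h : Orbit 𝔱 t) (i : Fin D) : (fun m => t (m + 1) i) ∈ coef h := by
  obtain ⟨F, G, hG, hs⟩ := h.step
  refine ⟨F i, G i, hG i, ?_⟩
  filter_upwards [h.ev_ne (hG i)] with m hm
  rw [eq_div_iff hm]
  exact hs m i

theorem shift_poly (h : Orbit 𝔱 t) (P : MvPolynomial (Fin D) ℂ) :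
    (fun m => eval (t (m + 1)) P) ∈ coef h := by
  have h2 : ((coef h).val ((MvPolynomial.aeval fun i =>
      (⟨fun m => t (m + 1) i, shift_coord h i⟩ : coef h)) P)) =
      fun m => eval (t (m + 1)) P := by
    rw [MvPolynomial.comp_aeval_apply]
    funext m
    have h7 := MvPolynomial.comp_aeval_apply
      (f := fun i => (coef h).val (⟨fun m => t (m + 1) i, shift_coord h i⟩ : coef h))
      (Pi.evalAlgHom ℂ (fun _ : ℕ => ℂ) m) P
    refine Eq.trans h7 ?_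
    rw [MvPolynomial.aeval_eq_eval]
    rfl
  rw [← h2]
  exact Subtype.property _

theorem coef_field (h : Orbit 𝔱 t) : CoefField (coef h) := by
  refine ⟨⟨?_, ?_⟩, fun f hf => inv_mem h hf⟩
  · rintro f ⟨P, R, hR, hf⟩
    refine mem_congr h ((coef h).mul_mem (shift_poly h P) (inv_mem h (shift_poly h R))) ?_
    filter_upwards [eventually_shift hf 1] with m hm
    rw [hm, Pi.mul_apply, div_eq_mul_inv]
  · rintro f ⟨P, R, hR, hf⟩
    by_cases hP : P ∈ 𝔱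
    · left
      filter_upwards [hf] with m hm
      rw [hm, h.mem m P hP, zero_div]
    · right
      filter_upwards [hf, h.ev_ne hR, h.ev_ne hP] with m hm h1 h2
      rw [hm]
      exact div_ne_zero h2 h1

/-- the transcendence degree of the coefficients is at most the dimension of `T` -/
theorem coef_tr (h : Orbit 𝔱 t) {d : ℕ}
    (hd : Algebra.trdeg ℂ (MvPolynomial (Fin D) ℂ ⧸ 𝔱) ≤ d) : TrLe (coef h) d := by
  classical
  intro b hb
  have hpr : 𝔱.IsPrime := h.prime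
  have hdom : IsDomain (MvPolynomial (Fin D) ℂ ⧸ 𝔱) := Ideal.Quotient.isDomain 𝔱
  let L := FractionRing (MvPolynomial (Fin D) ℂ ⧸ 𝔱)
  let q : MvPolynomial (Fin D) ℂ →ₐ[ℂ] (MvPolynomial (Fin D) ℂ ⧸ 𝔱) := Ideal.Quotient.mkₐ ℂ 𝔱
  have hq0 : ∀ P, q P = 0 ↔ P ∈ 𝔱 := fun P => Ideal.Quotient.eq_zero_iff_mem
  let ev0 : MvPolynomial (Fin D) ℂ →ₐ[ℂ] (ℕ → ℂ) ⧸ EZ :=
    (mk' EZ).comp (MvPolynomial.aeval fun i => (fun m => t m i : ℕ → ℂ))
  have hev0 : ∀ P : MvPolynomial (Fin D) ℂ, ev0 P = mk' EZ (fun m => eval (t m) P) := by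
    intro P
    change mk' EZ (MvPolynomial.aeval (fun i => (fun m => t m i : ℕ → ℂ)) P) = _
    congr 1
    funext m
    have h7 := MvPolynomial.comp_aeval_apply (f := fun i => (fun m => t m i : ℕ → ℂ))
      (Pi.evalAlgHom ℂ (fun _ : ℕ => ℂ) m) P
    refine Eq.trans h7 ?_
    rw [MvPolynomial.aeval_eq_eval]
    rfl
  let ev : (MvPolynomial (Fin D) ℂ ⧸ 𝔱) →ₐ[ℂ] (ℕ → ℂ) ⧸ EZ :=
    Ideal.Quotient.liftₐ 𝔱 ev0 (by
      intro P hP
      rw [hev0, mk'_zero, mem_EZ]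
      exact Eventually.of_forall fun m => h.mem m P hP)
  have hev : ∀ P, ev (q P) = mk' EZ (fun m => eval (t m) P) := by
    intro P
    rw [← hev0]
    exact Ideal.Quotient.liftₐ_apply 𝔱 ev0 _ _
  have hunit : ∀ a : nonZeroDivisors (MvPolynomial (Fin D) ℂ ⧸ 𝔱), IsUnit (ev a) := by
    intro a
    obtain ⟨P, hP⟩ := Ideal.Quotient.mk_surjective (a : MvPolynomial (Fin D) ℂ ⧸ 𝔱)
    have hP' : q P = a := hP
    have ha : P ∉ 𝔱 := by
      rw [← hq0, hP']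
      exact nonZeroDivisors.ne_zero a.2
    rw [← hP', hev]
    refine IsUnit.of_mul_eq_one (mk' EZ (fun m => (eval (t m) P)⁻¹)) ?_
    rw [← map_mul, ← map_one (mk' EZ), ← sub_eq_zero, ← map_sub]
    refine mk'_zero.2 ?_
    rw [mem_EZ]
    filter_upwards [h.ev_ne ha] with m hm
    rw [Pi.sub_apply, Pi.mul_apply, Pi.one_apply, mul_inv_cancel₀ hm, sub_self]
  let ψ : L →+* (ℕ → ℂ) ⧸ EZ :=
    IsLocalization.lift (M := nonZeroDivisors (MvPolynomial (Fin D) ℂ ⧸ 𝔱))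
      (g := (ev : (MvPolynomial (Fin D) ℂ ⧸ 𝔱) →+* _)) hunit
  have hψ : ∀ a, ψ (algebraMap (MvPolynomial (Fin D) ℂ ⧸ 𝔱) L a) = ev a := fun a =>
    IsLocalization.lift_eq _ a
  choose P R hR hf using hb
  let r : Fin (d + 1) → L := fun i =>
    algebraMap (MvPolynomial (Fin D) ℂ ⧸ 𝔱) L (q (P i)) /
      algebraMap (MvPolynomial (Fin D) ℂ ⧸ 𝔱) L (q (R i))
  have hψr : ∀ i, ψ (r i) = mk' EZ (b i) := by
    intro i
    have h1 : r i * algebraMap (MvPolynomial (Fin D) ℂ ⧸ 𝔱) L (q (R i)) =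
        algebraMap (MvPolynomial (Fin D) ℂ ⧸ 𝔱) L (q (P i)) := by
      apply div_mul_cancel₀
      intro h0
      exact hR i ((hq0 _).1 ((map_eq_zero_iff _ (IsFractionRing.injective _ L)).1 h0))
    have h2 := congrArg ψ h1
    rw [map_mul, hψ, hψ] at h2
    have h3 : mk' EZ (b i) * ev (q (R i)) = ev (q (P i)) := by
      rw [hev, hev, ← map_mul, ← sub_eq_zero, ← map_sub]
      refine mk'_zero.2 ?_
      rw [mem_EZ]
      filter_upwards [hf i, h.ev_ne (hR i)] with m h4 h5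
      rw [Pi.sub_apply, Pi.mul_apply, h4, div_mul_cancel₀ _ h5, sub_self]
    have h4 := hunit ⟨q (R i), mem_nonZeroDivisors_of_ne_zero fun h0 => hR i ((hq0 _).1 h0)⟩
    exact h4.mul_right_cancel (h2.trans h3.symm)
  have hnot : ¬ AlgebraicIndependent ℂ r := by
    intro hr
    have h1 := hr.lift_cardinalMk_le_trdeg
    have h2 := trdeg_add_eq ℂ (MvPolynomial (Fin D) ℂ ⧸ 𝔱) (A := L)
    have halg : Algebra.IsAlgebraic (MvPolynomial (Fin D) ℂ ⧸ 𝔱) L :=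
      IsLocalization.isAlgebraic L (nonZeroDivisors (MvPolynomial (Fin D) ℂ ⧸ 𝔱))
    have h3 : Algebra.trdeg (MvPolynomial (Fin D) ℂ ⧸ 𝔱) L = 0 := trdeg_eq_zero
    rw [h3, add_zero] at h2
    rw [← h2] at h1
    simp only [Cardinal.mk_fin, Cardinal.lift_id] at h1
    have h4 : ((d + 1 : ℕ) : Cardinal) ≤ d := h1.trans hd
    rw [Nat.cast_le] at h4
    omega
  rw [algebraicIndependent_iff] at hnot
  push Not at hnot
  obtain ⟨F, hF, hF0⟩ := hnot
  refine ⟨F, hF0, ?_⟩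
  have hψa : ∀ c : ℂ, ψ (algebraMap ℂ L c) = algebraMap ℂ _ c := by
    intro c
    rw [IsScalarTower.algebraMap_apply ℂ (MvPolynomial (Fin D) ℂ ⧸ 𝔱) L, hψ]
    exact ev.commutes c
  let ψ' : L →ₐ[ℂ] (ℕ → ℂ) ⧸ EZ := { ψ with commutes' := hψa }
  have h1 : ψ' (aeval r F) = 0 := by rw [hF, map_zero]
  rw [MvPolynomial.comp_aeval_apply] at h1
  have h2 : (fun i => ψ' (r i)) = fun i => mk' EZ (b i) := by
    funext i
    exact hψr i
  rw [h2, ← MvPolynomial.comp_aeval_apply, mk'_zero, mem_EZ] at h1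
  filter_upwards [h1] with m hm
  have h7 := MvPolynomial.comp_aeval_apply (f := b) (Pi.evalAlgHom ℂ (fun _ : ℕ => ℂ) m) F
  have h8 : (aeval b F : ℕ → ℂ) m = aeval (fun i => b i m) F := h7
  rw [h8, MvPolynomial.aeval_eq_eval] at hm
  exact hm

/-- The sequence `f` satisfies a nontrivial linear recurrence whose coefficients are polynomials in
the coordinates of `t m`. -/
def RecAlong (𝔱 : Ideal (MvPolynomial (Fin D) ℂ)) (t : ℕ → Fin D → ℂ) (f : ℕ → ℂ) : Prop :=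
  ∃ (r : ℕ) (a : ℕ → MvPolynomial (Fin D) ℂ), (∃ k ≤ r, a k ∉ 𝔱) ∧
    ∀ m, ∑ k ∈ Finset.range (r + 1), eval (t m) (a k) * f (m + k) = 0

theorem RecAlong.linRec (h : Orbit 𝔱 t) {f : ℕ → ℂ} (hf : RecAlong 𝔱 t f) :
    LinRec (coef h) f := by
  obtain ⟨r, a, ⟨k, hk, hk0⟩, hr⟩ := hf
  refine ⟨r, fun k m => eval (t m) (a k), fun k => poly_mem h (a k), ⟨k, hk, fun h0 => ?_⟩,
    Eventually.of_forall hr⟩
  obtain ⟨m, h1, h2⟩ := (h0.and (h.ev_ne hk0)).exists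
  exact h2 h1

end Pool.Agent.X332.OR
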