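import Mathlib
import Pool.Agent.X332.OR.Orb

/-!
Orbits on curves: proper closed subsets of an irreducible affine curve are finite.
-/

set_option autoImplicit false

namespace Pool.Agent.X332.OR

open MvPolynomial Filter Pool.Agent.TH143.DE

theorem finite_zeros_one {c : MvPolynomial (Fin 1) ℂ} (hc : c ≠ 0) :
    {z : ℂ | eval (fun _ => z) c = 0}.Finite := by
  let c' : Polynomial ℂ := MvPolynomial.aeval (fun _ => Polynomial.X) c
  have hev : ∀ z : ℂ, c'.eval z = eval (fun _ => z) c := by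
    intro z
    have h1 := MvPolynomial.comp_aeval_apply (f := fun _ : Fin 1 => (Polynomial.X : Polynomial ℂ))
      (Polynomial.aeval z : Polynomial ℂ →ₐ[ℂ] ℂ) c
    have h2 : (Polynomial.aeval z : Polynomial ℂ →ₐ[ℂ] ℂ) c' = c'.eval z := by
      rw [Polynomial.coe_aeval_eq_eval]
    rw [← h2]
    refine Eq.trans h1 ?_
    simp only [Polynomial.aeval_X]
    rw [MvPolynomial.aeval_eq_eval]
  have hc' : c' ≠ 0 := by
    intro h0
    apply hc
    apply MvPolynomial.funext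
    intro s
    have h1 : s = fun _ => s 0 := by
      funext i
      rw [Subsingleton.elim i 0]
    rw [h1, ← hev, h0, Polynomial.eval_zero, map_zero]
  refine (Polynomial.finite_setOfPred_isRoot hc').subset fun z hz => ?_
  change c'.eval z = 0
  rw [hev]
  exact hz

variable {D : ℕ} {𝔱 : Ideal (MvPolynomial (Fin D) ℂ)}

theorem finite_coord (hp : 𝔱.IsPrime)
    (htr : Algebra.trdeg ℂ (MvPolynomial (Fin D) ℂ ⧸ 𝔱) ≤ 1) {P : MvPolynomial (Fin D) ℂ}
    (hP : P ∉ 𝔱) (i : Fin D) :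
    ∃ S : Set ℂ, S.Finite ∧ ∀ τ : Fin D → ℂ, (∀ F ∈ 𝔱, eval τ F = 0) → eval τ P = 0 → τ i ∈ S := by
  classical
  have hdom : IsDomain (MvPolynomial (Fin D) ℂ ⧸ 𝔱) := Ideal.Quotient.isDomain 𝔱
  let q : MvPolynomial (Fin D) ℂ →ₐ[ℂ] (MvPolynomial (Fin D) ℂ ⧸ 𝔱) := Ideal.Quotient.mkₐ ℂ 𝔱
  have hq0 : ∀ P, q P = 0 ↔ P ∈ 𝔱 := fun P => Ideal.Quotient.eq_zero_iff_mem
  have hnot : ¬ AlgebraicIndependent ℂ ![q P, q (X i)] := by
    intro hr
    have h1 := hr.lift_cardinalMk_le_trdeg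
    simp only [Cardinal.mk_fin, Cardinal.lift_id] at h1
    have h2 := h1.trans htr
    norm_num at h2
  rw [algebraicIndependent_iff] at hnot
  push Not at hnot
  obtain ⟨F, hF, hF0⟩ := hnot
  have hF1 : finSuccEquiv ℂ 1 F ≠ 0 := by
    rwa [Ne, EmbeddingLike.map_eq_zero_iff]
  obtain ⟨G, hG, hGd⟩ := Polynomial.exists_eq_pow_rootMultiplicity_mul_and_not_dvd _ hF1 0
  obtain ⟨k, hk⟩ : ∃ k, k = (finSuccEquiv ℂ 1 F).rootMultiplicity 0 := ⟨_, rfl⟩
  rw [← hk, Polynomial.C_0, sub_zero] at hG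
  have hG0 : G.coeff 0 ≠ 0 := by
    intro h0
    apply hGd
    rw [Polynomial.C_0, sub_zero, Polynomial.X_dvd_iff]
    exact h0
  have hFG : F = X 0 ^ k * (finSuccEquiv ℂ 1).symm G := by
    apply (finSuccEquiv ℂ 1).injective
    rw [map_mul, map_pow, AlgEquiv.apply_symm_apply, finSuccEquiv_X_zero]
    exact hG
  have hGz : aeval ![q P, q (X i)] ((finSuccEquiv ℂ 1).symm G) = 0 := by
    rw [hFG, map_mul, map_pow, aeval_X] at hF
    rcases mul_eq_zero.1 hF with h1 | h1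
    · exfalso
      have h2 : q P = 0 := eq_zero_of_pow_eq_zero h1
      exact hP ((hq0 P).1 h2)
    · exact h1
  refine ⟨{z : ℂ | eval (fun _ => z) (G.coeff 0) = 0}, finite_zeros_one hG0, fun τ hτ hτP => ?_⟩
  have h1 : q (aeval ![P, X i] ((finSuccEquiv ℂ 1).symm G)) = 0 := by
    rw [MvPolynomial.comp_aeval_apply]
    have h2 : (fun j => q (![P, X i] j)) = ![q P, q (X i)] := by
      funext j
      fin_cases j <;> rfl
    rw [h2]
    exact hGz
  have h3 := hτ _ ((hq0 _).1 h1)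
  have h4 : eval τ (aeval ![P, X i] ((finSuccEquiv ℂ 1).symm G)) =
      eval (Fin.cons 0 (fun _ => τ i) : Fin 2 → ℂ) ((finSuccEquiv ℂ 1).symm G) := by
    have h5 := MvPolynomial.comp_aeval_apply (f := ![P, X i])
      (MvPolynomial.aeval τ : MvPolynomial (Fin D) ℂ →ₐ[ℂ] ℂ) ((finSuccEquiv ℂ 1).symm G)
    rw [MvPolynomial.aeval_eq_eval] at h5
    refine Eq.trans h5 ?_
    rw [MvPolynomial.aeval_eq_eval]
    congr 2
    funext j
    refine Fin.cases ?_ (fun j => ?_) j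
    · exact hτP
    · rw [Subsingleton.elim j 0]
      exact eval_X _
  rw [h4, eval_eq_eval_mv_eval', AlgEquiv.apply_symm_apply, ← Polynomial.coeff_zero_eq_eval_zero,
    Polynomial.coeff_map] at h3
  exact h3

/-- **Proper closed subsets of an irreducible curve are finite.** -/
theorem finite_zeros (hp : 𝔱.IsPrime)
    (htr : Algebra.trdeg ℂ (MvPolynomial (Fin D) ℂ ⧸ 𝔱) ≤ 1) {P : MvPolynomial (Fin D) ℂ}
    (hP : P ∉ 𝔱) : {τ : Fin D → ℂ | (∀ F ∈ 𝔱, eval τ F = 0) ∧ eval τ P = 0}.Finite := by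
  choose S hS h using fun i => finite_coord hp htr hP i
  refine (Set.Finite.pi fun i => hS i).subset fun τ hτ => ?_
  intro i _
  exact h i τ hτ.1 hτ.2

/-- **Orbits on curves.** -/
theorem orbit_of_curve (hp : 𝔱.IsPrime)
    (htr : Algebra.trdeg ℂ (MvPolynomial (Fin D) ℂ ⧸ 𝔱) ≤ 1) {t : ℕ → Fin D → ℂ}
    (ht : Function.Injective t) (hmem : ∀ m, ∀ P ∈ 𝔱, eval (t m) P = 0)
    (hstep : ∃ F G : Fin D → MvPolynomial (Fin D) ℂ, (∀ i, G i ∉ 𝔱) ∧
      ∀ m i, t (m + 1) i * eval (t m) (G i) = eval (t m) (F i)) : Orbit 𝔱 t :=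
  ⟨hp, hmem, hstep, fun _ hP => ((finite_zeros hp htr hP).preimage ht.injOn).subset
    fun m hm => ⟨hmem m, hm⟩⟩

end Pool.Agent.X332.OR
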