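import Mathlib
import Pool.Agent.X332.OR.Curve

/-!
Zariski dense sequences of points given by linear recurrences with coefficients along an orbit.
-/

set_option autoImplicit false

namespace Pool.Agent.X332.OR

open MvPolynomial Filter Pool.Agent.TH143 Pool.Agent.TH143.GT Pool.Agent.W602.GT
  Pool.Agent.TH143.DE

variable {N : ℕ} {B : Subalgebra ℂ (ℕ → ℂ)} {K : Type} [Field K] [Algebra ℂ K] {w : ℕ}
  {y : Fin (N + 1) → K} {p : Ideal (MvPolynomial (Fin (N + 1)) ℂ)}
  {Q : MvPolynomial (Fin (N + 1)) ℂ} {q : ℕ}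

/-- a subfield with an element which is not constant on a family of rational curves -/
theorem covered_sub (hy : FunField p Q K w y) {E : IntermediateField ℂ K} {r : E}
    (hr : ¬ AllFlat Q y (r : K)) : Covered E := by
  unfold AllFlat at hr
  push Not at hr
  obtain ⟨M, _, _, m, W, l, hm, hF, hr⟩ := hr
  unfold Flat at hr
  push Not at hr
  obtain ⟨d, g1, g0, h1, h0, hn, hrr, hne⟩ := hr
  obtain ⟨φ, hφ⟩ := hF.emb hy.sub.ne hy.sub.gen
  refine ⟨M, inferInstance, inferInstance, φ.comp E.val, r, fun c hc => ?_⟩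
  change φ (r : K) = _ at hc
  rw [hrr, hφ d g1 g0 h1 h0 hn] at hc
  have hb : (aeval W g0 : Polynomial M) ≠ 0 := by
    rw [Ne, ← hF.rel g0 ⟨d, h0⟩]
    exact hn
  have hb' : rf (aeval W g0 : Polynomial M) ≠ 0 := by rwa [Ne, rf_zero]
  apply hne
  rw [div_eq_iff hb'] at hc
  have h2 : (aeval W g1 : Polynomial M) = Polynomial.C c * aeval W g0 := by
    apply rf_inj
    rw [hc, rf_mul]
    congr 1
  rw [h2, Polynomial.derivative_C_mul]
  ring

theorem trdeg_sub_le (E : IntermediateField ℂ K) {v : ℕ} (hK : Algebra.trdeg ℂ K = w)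
    (hv : Algebra.trdeg ℂ E = v) : v ≤ w := by
  have h1 : Algebra.trdeg ℂ E ≤ Algebra.trdeg ℂ K := trdeg_le_of_injective E.val E.val.injective
  rw [hK, hv] at h1
  exact_mod_cast h1

/-- **Images of varieties with a dense sequence of points given by linear recurrences.** -/
theorem dense_images (hB : CoefField B) {d : ℕ} (hd : TrLe B d) (hy : FunField p 1 K w y)
    {x : ℕ → Fin (N + 1) → ℂ} (hx : ∀ j, LinRec B (fun m => x m j))
    (hX : ∀ m, ∀ H ∈ p, eval (x m) H = 0) (hdense : SeqDense p x) (E : IntermediateField ℂ K)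
    {v : ℕ} (hv : Algebra.trdeg ℂ E = v) (hdv : d < v) :
    Covered E ∧ (∀ n : ℕ, 0 < n → ∀ ω : (Fin v → Derivation ℂ E E) → E,
      Pluricanonical v n ω → ω = 0) ∧ ¬ GeneralType ℂ E v := by
  have hvw := trdeg_sub_le E hy.sub.dim hv
  obtain ⟨r, hr⟩ := main_seqE hB hd (isHomogeneous_one _ _) hy hx (Eventually.of_forall hX)
    ⟨Eventually.of_forall fun m => by rw [map_one]; exact one_ne_zero, fun _ => 1, B.one_mem,
      Eventually.of_forall fun m => by rw [map_one, map_one, one_mul]⟩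
    (hdense.tail hy (by omega)) E hv hdv
  have hcov := covered_sub hy hr
  have hfg : E.FG := Pool.Agent.Y333.IL.t_FGS K (Pool.Agent.Y377.IL.fg_of_coords hy.sub.gen) E
  have hpl : ∀ n : ℕ, 0 < n → ∀ ω : (Fin v → Derivation ℂ E E) → E,
      Pluricanonical v n ω → ω = 0 := by
    intro n hn ω hω
    obtain ⟨m, p', y', hy'⟩ := Pool.Agent.Y377.IL.exists_funField
      (Pool.Agent.Y377.IL.fg_top_of_fg hfg) hv
    exact Pool.Agent.Y288.IL.t_PL m p' E v y' hy' (by omega) hcov n hn ω hω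
  exact ⟨hcov, hpl, Pool.Agent.Y377.IL.not_gt hpl⟩

/-- **Orbits.** -/
theorem orbit_images {D : ℕ} {𝔱 : Ideal (MvPolynomial (Fin D) ℂ)} {t : ℕ → Fin D → ℂ}
    (ho : Orbit 𝔱 t) {d : ℕ} (hd : Algebra.trdeg ℂ (MvPolynomial (Fin D) ℂ ⧸ 𝔱) ≤ d)
    (hy : FunField p 1 K w y) {x : ℕ → Fin (N + 1) → ℂ} (hx : ∀ j, RecAlong 𝔱 t fun m => x m j)
    (hX : ∀ m, ∀ H ∈ p, eval (x m) H = 0) (hdense : SeqDense p x) (E : IntermediateField ℂ K)
    {v : ℕ} (hv : Algebra.trdeg ℂ E = v) (hdv : d < v) :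
    Covered E ∧ (∀ n : ℕ, 0 < n → ∀ ω : (Fin v → Derivation ℂ E E) → E,
      Pluricanonical v n ω → ω = 0) ∧ ¬ GeneralType ℂ E v :=
  dense_images (coef_field ho) (coef_tr ho hd) hy (fun j => (hx j).linRec ho) hX hdense E hv hdv

end Pool.Agent.X332.OR
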