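import Mathlib
import Pool.Agent.X332.OR.Main

/-!
Sequences of points with coordinates which are polynomials in solutions of linear systems.
-/

set_option autoImplicit false

namespace Pool.Agent.X332.OR

open MvPolynomial Filter Pool.Agent.TH143 Pool.Agent.TH143.GT Pool.Agent.W602.GT
  Pool.Agent.W603.BP Pool.Agent.W603.GR Pool.Agent.W603.BPR Pool.Agent.TH143.DE

variable {N : ℕ} {B : Subalgebra ℂ (ℕ → ℂ)} {K : Type} [Field K] [Algebra ℂ K] {w : ℕ}
  {y : Fin (N + 1) → K} {p : Ideal (MvPolynomial (Fin (N + 1)) ℂ)}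
  {Q : MvPolynomial (Fin (N + 1)) ℂ} {q : ℕ}

/-- The family of rational curves through the points of a sequence of points with coordinates which
are polynomials in the entries of a fundamental matrix of a linear system of recurrences. -/
theorem main_sys (hB : CoefField B) {d : ℕ} (hd : TrLe B d) (hQe : Q.IsHomogeneous q)
    (hy : FunField p Q K w y) (hw : d < w) {x : ℕ → Fin (N + 1) → ℂ} {s n : ℕ}
    (A : Fin n → Fin n → B) (U : ℕ → Matrix (Fin n) (Fin n) ℂ)
    (Φ : Fin (N + 1) → MvPolynomial (Fin n × Fin n) ℂ)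
    (hU : ∀ᶠ m in atTop, U (m + 1) = Am A m * U m) (hdet : ∀ᶠ m in atTop, (U m).det ≠ 0)
    (hpt : ∀ᶠ m in atTop, x (m + s) = pt U Φ m)
    (hX : ∀ᶠ m in atTop, ∀ H ∈ p, eval (x m) H = 0)
    (hQ : Hyper B Q x) (hdense : TailDense p x) : ∃ r : K, ¬ AllFlat Q y r := by
  classical
  -- forms along the sequence
  have hform : ∀ H : MvPolynomial (Fin (N + 1)) ℂ, (∀ᶠ m in atTop, eval (pt U Φ m) H = 0) →
      ∀ᶠ m in atTop, eval (x m) H = 0 := by
    intro H hH
    obtain ⟨m0, hm0⟩ := eventually_atTop.1 (hH.and hpt)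
    refine eventually_atTop.2 ⟨m0 + s, fun m hm => ?_⟩
    obtain ⟨h1, h2⟩ := hm0 (m - s) (by omega)
    rw [← h2, Nat.sub_add_cancel (by omega)] at h1
    exact h1
  have hmem : ∀ H ∈ p, ∀ᶠ m in atTop, eval (pt U Φ m) H = 0 := by
    intro H hH
    filter_upwards [eventually_shift hX s, hpt] with m h1 h2
    rw [← h2]
    exact h1 H hH
  have hval : ∀ H : MvPolynomial (Fin (N + 1)) ℂ, IsForm H →
      (W602.GT.val y H ≠ 0 → ¬ ∀ᶠ m in atTop, eval (pt U Φ m) H = 0) := by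
    intro H hH h0 hcon
    exact h0 (hy.sub.mem H (hdense H hH (hform H hcon)))
  -- the prime ideal
  let T : Submonoid (ℕ → ℂ) :=
    { carrier := {f | ∃ H : MvPolynomial (Fin (N + 1)) ℂ, IsForm H ∧ W602.GT.val y H ≠ 0 ∧
        f = fun m => eval (pt U Φ m) H}
      mul_mem' := by
        rintro _ _ ⟨H, ⟨a, ha⟩, h0, rfl⟩ ⟨H', ⟨b, hb⟩, h0', rfl⟩
        refine ⟨H * H', ⟨a + b, ha.mul hb⟩, ?_, ?_⟩
        · rw [val_mul']
          exact mul_ne_zero h0 h0'
        · funext m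
          rw [map_mul]
          rfl
      one_mem' := ⟨1, ⟨0, isHomogeneous_one _ _⟩, by rw [val_one]; exact one_ne_zero, by
        funext m
        rw [map_one]
        rfl⟩ }
  have hdisj : Disjoint (EZ : Set (ℕ → ℂ)) T := by
    rw [Set.disjoint_left]
    rintro f hf ⟨H, hH, h0, rfl⟩
    exact hval H hH h0 hf
  obtain ⟨I, hIp, hI, hIT⟩ := Ideal.exists_le_prime_disjoint EZ T hdisj
  have hdom : IsDomain ((ℕ → ℂ) ⧸ I) := Ideal.Quotient.isDomain I
  let KR := FractionRing ((ℕ → ℂ) ⧸ I)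
  let a : ((ℕ → ℂ) ⧸ I) →+* KR := algebraMap _ KR
  have hinj : Function.Injective a := IsFractionRing.injective _ KR
  let z : Fin (N + 1) → KR := fun j => a (mk' I fun m => pt U Φ m j)
  have hz : ∀ G : MvPolynomial (Fin (N + 1)) ℂ, W602.GT.val z G =
      a (mk' I fun m => eval (pt U Φ m) G) := by
    intro G
    have h1 := MvPolynomial.comp_aeval_apply (f := fun j => (fun m => pt U Φ m j : ℕ → ℂ))
      ((IsScalarTower.toAlgHom ℂ ((ℕ → ℂ) ⧸ I) KR).comp (mk' I)) G
    have h2 : (aeval (fun j => (fun m => pt U Φ m j : ℕ → ℂ)) G : ℕ → ℂ) =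
        fun m => eval (pt U Φ m) G := by
      funext m
      have h7 := MvPolynomial.comp_aeval_apply (f := fun j => (fun m => pt U Φ m j : ℕ → ℂ))
        (Pi.evalAlgHom ℂ (fun _ : ℕ => ℂ) m) G
      have h8 : (aeval (fun j => (fun m => pt U Φ m j : ℕ → ℂ)) G : ℕ → ℂ) m =
        aeval (fun i => pt U Φ m i) G := h7
      rw [h8, MvPolynomial.aeval_eq_eval]
    rw [← h2]
    exact h1.symm
  have hzero : ∀ G : MvPolynomial (Fin (N + 1)) ℂ, IsForm G →
      (W602.GT.val y G = 0 ↔ (fun m => eval (pt U Φ m) G) ∈ I) := by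
    intro G hG
    constructor
    · intro h0
      exact hI (hmem G (hy.mem G hG h0))
    · intro h0
      by_contra h1
      exact Set.disjoint_left.1 hIT h0 ⟨G, hG, h1, rfl⟩
  have hyz : ∀ G : MvPolynomial (Fin (N + 1)) ℂ, IsForm G →
      (W602.GT.val y G = 0 ↔ W602.GT.val z G = 0) := by
    intro G hG
    rw [hzero G hG, hz, map_eq_zero_iff a hinj, mk'_zero]
  obtain ⟨i0, hi0⟩ := Function.ne_iff.1 hy.sub.ne
  have hi0' : y i0 ≠ 0 := hi0
  have hzi : z i0 ≠ 0 := by
    intro h0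
    apply hi0'
    have h1 := (hyz (X i0) ⟨1, isHomogeneous_X _ _⟩).2 (by
      unfold W602.GT.val
      rw [aeval_X]
      exact h0)
    rwa [val_X] at h1
  obtain ⟨φ, hφ⟩ := exists_embedding hi0' hzi hy.sub.gen hyz
  have hφv : ∀ G : MvPolynomial (Fin (N + 1)) ℂ, φ (aeval (fun j => y j / y i0) G) =
      aeval (fun j => z j / z i0) G := by
    intro G
    have h2 := MvPolynomial.comp_aeval_apply (f := fun j => y j / y i0) φ G
    rw [h2]
    congr 2
    funext j
    exact hφ j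
  have hφr : ∀ (d : ℕ) (g1 g0 : MvPolynomial (Fin (N + 1)) ℂ), g1.IsHomogeneous d →
      g0.IsHomogeneous d → W602.GT.val y g0 ≠ 0 →
      φ (W602.GT.val y g1 / W602.GT.val y g0) = W602.GT.val z g1 / W602.GT.val z g0 := by
    intro d g1 g0 h1 h0 hn
    have hyd : y i0 ^ d ≠ 0 := pow_ne_zero _ hi0'
    have hzd : z i0 ^ d ≠ 0 := pow_ne_zero _ hzi
    rw [val_scale hi0' h1, val_scale hi0' h0, mul_div_mul_left _ _ hyd, map_div₀, hφv, hφv,
      val_scale hzi h1, val_scale hzi h0, mul_div_mul_left _ _ hzd]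
  -- a transcendence basis
  obtain ⟨y0, hy0⟩ : ∃ y0 : Fin w → K, IsTranscendenceBasis ℂ y0 := by
    obtain ⟨T, hT⟩ := exists_isTranscendenceBasis ℂ K
    have hcard := hT.cardinalMk_eq_trdeg
    rw [hy.sub.dim] at hcard
    have hfin : Finite T := by
      rw [← Cardinal.lt_aleph0_iff_finite, hcard]
      exact Cardinal.natCast_lt_aleph0
    obtain ⟨m', ⟨e⟩⟩ := Finite.exists_equiv_fin T
    obtain rfl : m' = w := by
      rw [Cardinal.mk_congr e, Cardinal.mk_fin] at hcard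
      exact_mod_cast hcard
    exact ⟨fun i => (e.symm i : K), hT.comp_equiv e.symm⟩
  have hind : AlgebraicIndependent ℂ (fun i => φ (y0 i)) :=
    AlgebraicIndependent.map' hy0.1 (f := φ) φ.injective
  obtain ⟨D, i, hadd, hmul, hDB, hDi⟩ := exists_der_cf hB hI (K := KR) hd hw _ hind
  obtain ⟨e, g1, g0, hg1, hg0, hn, hr⟩ := exists_frac hy.sub.gen (y0 i)
  have hzn : W602.GT.val z g0 ≠ 0 := fun h => hn ((hyz g0 ⟨e, hg0⟩).2 h)
  have hD1 : D (W602.GT.val z g1 / W602.GT.val z g0) = 1 := by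
    rw [← hφr e g1 g0 hg1 hg0 hn, ← hr]
    exact hDi
  have hDG : D (W602.GT.val z g1) * W602.GT.val z g0 -
      W602.GT.val z g1 * D (W602.GT.val z g0) ≠ 0 := by
    have h1 : W602.GT.val z g1 = (W602.GT.val z g1 / W602.GT.val z g0) * W602.GT.val z g0 :=
      (div_mul_cancel₀ _ hzn).symm
    have h2 : D (W602.GT.val z g1) = (W602.GT.val z g1 / W602.GT.val z g0) *
        D (W602.GT.val z g0) + W602.GT.val z g0 := by
      conv_lhs => rw [h1]
      rw [hmul, hD1, mul_one]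
    have h3 : D (W602.GT.val z g1) * W602.GT.val z g0 -
        W602.GT.val z g1 * D (W602.GT.val z g0) = W602.GT.val z g0 ^ 2 := by
      rw [h2]
      linear_combination (-D (W602.GT.val z g0)) * h1
    rw [h3]
    exact pow_ne_zero _ hzn
  have hQ0 : ∀ᶠ m in atTop, eval (pt U Φ m) Q ≠ 0 := by
    filter_upwards [eventually_shift hQ.1 s, hpt] with m h1 h2
    rwa [← h2]
  obtain ⟨b, hbB, hb⟩ := hQ.2
  obtain ⟨M, i1, i2, m, hm, W, hW1, hW2, ⟨c, l, hc, hcQ⟩, hN⟩ := fam_of_der hB A U hU hdet hI D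
    hadd hmul hDB Φ g0 g1 hg0 hg1 (by rw [hz, hz] at hDG; exact hDG) Q hQe hQ0
    ⟨_, hB.toCoefRing.shift' hbB s⟩ (by
      filter_upwards [eventually_shift hb s, hpt, eventually_shift hpt 1] with m h1 h2 h3
      rw [← h2, ← h3]
      have h4 : m + 1 + s = m + s + 1 := by ring
      rw [h4]
      exact h1)
  refine ⟨y0 i, fun hall => hN ?_⟩
  have hF : Fam y Q W l := by
    refine ⟨fun G hG => ⟨fun h0 => ?_, fun h0 => ?_⟩, c, hc, hcQ⟩
    · exact hW1 G hG (hmem G (hy.mem G hG h0))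
    · exact (hzero G hG).2 (hW2 G h0)
  exact hall M m W l hm hF e g1 g0 hg1 hg0 hn hr


end Pool.Agent.X332.OR
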