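import Mathlib
import Pool.Agent.X332.OR.Sys

/-!
Affine varieties with dense sequences of points given by linear recurrences.
-/

set_option autoImplicit false

namespace Pool.Agent.X332.OR

open MvPolynomial Filter Pool.Agent.TH143 Pool.Agent.TH143.GT Pool.Agent.W602.GT
  Pool.Agent.W603.BP Pool.Agent.W603.GR Pool.Agent.W603.BPR Pool.Agent.TH143.DE FF

variable {N M : ℕ} {I : Ideal (MvPolynomial (Fin N) ℂ)} {J : Ideal (MvPolynomial (Fin M) ℂ)}

/-- `E` is the function field, and `e` the generic point, of the affine variety with the prime ideal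
`J`, of dimension `v`. -/
structure AffField (J : Ideal (MvPolynomial (Fin M) ℂ)) (E : Type) [Field E] [Algebra ℂ E] (v : ℕ)
    (e : Fin M → E) : Prop where
  ker : ∀ G : MvPolynomial (Fin M) ℂ, aeval e G = 0 ↔ G ∈ J
  gen : IntermediateField.adjoin ℂ (Set.range e) = ⊤
  dim : Algebra.trdeg ℂ E = v

/-- The affine variety with the generic point `e` over its function field `E` is covered by the
images of nonconstant morphisms from the multiplicative group: `E` is a subfield of the field of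
rational functions `F(s)` over a field `F ⊇ ℂ`, not contained in `F`, and the coordinates `e i` are
Laurent polynomials in `s`. -/
def GmCovered {E : Type} [Field E] [Algebra ℂ E] (e : Fin M → E) : Prop :=
  ∃ (F : Type) (_ : Field F) (_ : Algebra ℂ F) (φ : E →ₐ[ℂ] RatFunc F),
    (∀ i, ∃ (W : Polynomial F) (l : ℕ),
      φ (e i) * algebraMap (Polynomial F) (RatFunc F) (Polynomial.X ^ l) =
        algebraMap (Polynomial F) (RatFunc F) W) ∧
    ∃ r : E, ∀ c : F, φ r ≠ algebraMap F (RatFunc F) c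

/-- the point in homogeneous coordinates -/
def hc {A : Type} [One A] (e : Fin M → A) : Fin (M + 1) → A := Fin.cons 1 e

/-- dehomogenization -/
noncomputable def dh (H : MvPolynomial (Fin (M + 1)) ℂ) : MvPolynomial (Fin M) ℂ :=
  aeval (hc X) H

theorem aeval_dh {A : Type} [CommRing A] [Algebra ℂ A] (e : Fin M → A)
    (H : MvPolynomial (Fin (M + 1)) ℂ) : aeval e (dh H) = aeval (hc e) H := by
  unfold dh
  rw [MvPolynomial.comp_aeval_apply]
  congr 2
  funext i
  refine Fin.cases ?_ (fun i => ?_) i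
  · exact map_one _
  · exact aeval_X _ _

theorem eval_dh (e : Fin M → ℂ) (H : MvPolynomial (Fin (M + 1)) ℂ) :
    eval e (dh H) = eval (hc e) H := by
  rw [← MvPolynomial.aeval_eq_eval, ← MvPolynomial.aeval_eq_eval]
  exact aeval_dh e H

theorem eval_bind' {ι κ : Type} (Φ : ι → MvPolynomial κ ℂ) (R : MvPolynomial ι ℂ) (x : κ → ℂ) :
    eval x (bind₁ Φ R) = eval (fun j => eval x (Φ j)) R := by
  rw [eval, eval₂Hom_bind₁]
  rfl

/-- the ideal of the projective closure -/
noncomputable def pc {E : Type} [Field E] [Algebra ℂ E] (e : Fin M → E) :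
    Ideal (MvPolynomial (Fin (M + 1)) ℂ) :=
  Ideal.span {G | IsForm G ∧ W602.GT.val (hc e) G = 0}

theorem funField {E : Type} [Field E] [Algebra ℂ E] {v : ℕ} {e : Fin M → E}
    (he : AffField J E v e) : FunField (pc e) (X 0) E v (hc e) := by
  have hy0 : hc e 0 = 1 := rfl
  refine ⟨⟨?_, ?_, ?_, ?_, he.dim⟩, ?_⟩
  · intro h0
    have h1 := congrFun h0 0
    rw [hy0] at h1
    exact one_ne_zero h1
  · intro G hG
    have h1 : pc e ≤ RingHom.ker (aeval (hc e) : MvPolynomial (Fin (M + 1)) ℂ →ₐ[ℂ] E) := by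
      unfold pc
      rw [Ideal.span_le]
      intro G hG
      exact hG.2
    exact h1 hG
  · unfold W602.GT.val
    rw [aeval_X, hy0]
    exact one_ne_zero
  · rw [← top_le_iff, ← he.gen]
    unfold coords
    rw [IntermediateField.adjoin_le_iff]
    rintro _ ⟨i, rfl⟩
    apply IntermediateField.subset_adjoin
    refine ⟨i.succ, 0, by rw [hy0]; exact one_ne_zero, ?_⟩
    rw [hy0, div_one]
    rfl
  · intro G hG h0
    exact Ideal.subset_span ⟨hG, h0⟩

theorem gmCovered {E : Type} [Field E] [Algebra ℂ E] {v : ℕ} {e : Fin M → E}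
    (hy : FunField (pc e) (X 0) E v (hc e)) {r : E} (hr : ¬ AllFlat (X 0) (hc e) r) :
    GmCovered e := by
  unfold AllFlat at hr
  push Not at hr
  obtain ⟨F, _, _, m, W, l, hm, hF, hr⟩ := hr
  unfold Flat at hr
  push Not at hr
  obtain ⟨d, g1, g0, h1, h0, hn, hrr, hne⟩ := hr
  obtain ⟨φ, hφ⟩ := hF.emb hy.sub.ne hy.sub.gen
  obtain ⟨c0, hc0, hcl⟩ := hF.bd
  rw [aeval_X] at hcl
  refine ⟨F, inferInstance, inferInstance, φ, fun i => ⟨Polynomial.C c0⁻¹ * W i.succ, l, ?_⟩, r,
    fun c hc => ?_⟩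
  · have h2 := hφ 1 (X i.succ) (X 0) (isHomogeneous_X _ _) (isHomogeneous_X _ _) (by
      unfold W602.GT.val
      rw [aeval_X]
      exact one_ne_zero)
    unfold W602.GT.val at h2
    rw [aeval_X, aeval_X, aeval_X, aeval_X] at h2
    have h3 : (hc e i.succ / hc e 0 : E) = e i := by
      change e i / 1 = e i
      rw [div_one]
    rw [h3, hcl] at h2
    rw [h2, rf_mul]
    have h4 : rf (Polynomial.C c0 : Polynomial F) ≠ 0 := by
      rw [Ne, rf_zero]
      exact Polynomial.C_ne_zero.2 hc0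
    have h5 : rf (Polynomial.X ^ l : Polynomial F) ≠ 0 := by
      rw [Ne, rf_zero]
      exact pow_ne_zero _ Polynomial.X_ne_zero
    change rf (W i.succ) / (rf (Polynomial.C c0) * rf (Polynomial.X ^ l)) *
      rf (Polynomial.X ^ l) = rf (Polynomial.C c0⁻¹ * W i.succ)
    rw [rf_mul]
    have h6 : rf (Polynomial.C c0⁻¹ : Polynomial F) * rf (Polynomial.C c0) = 1 := by
      rw [← rf_mul, ← Polynomial.C_mul, inv_mul_cancel₀ hc0, Polynomial.C_1]
      exact map_one _
    rw [div_mul_eq_mul_div, div_eq_iff (mul_ne_zero h4 h5)]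
    linear_combination (-(rf (W i.succ) * rf (Polynomial.X ^ l))) * h6
  · rw [hrr, hφ d g1 g0 h1 h0 hn] at hc
    have hb : (aeval W g0 : Polynomial F) ≠ 0 := by
      rw [Ne, ← hF.rel g0 ⟨d, h0⟩]
      exact hn
    have hb' : rf (aeval W g0 : Polynomial F) ≠ 0 := by rwa [Ne, rf_zero]
    apply hne
    rw [div_eq_iff hb'] at hc
    have h2 : (aeval W g1 : Polynomial F) = Polynomial.C c * aeval W g0 := by
      apply rf_inj
      rw [hc, rf_mul]
      congr 1
    rw [h2, Polynomial.derivative_C_mul]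
    ring

/-- some coordinate of the image is not constant -/
theorem exists_sep {E : Type} [Field E] [Algebra ℂ E] {v : ℕ} {e : Fin M → E}
    (he : AffField J E v e) (hv : 0 < v) {g : Fin M → MvPolynomial (Fin N) ℂ}
    (hg : ∀ G, G ∈ J ↔ bind₁ g G ∈ I) (u : Fin N → ℂ) :
    ∃ ℓ : MvPolynomial (Fin N) ℂ, ℓ ∉ I ∧ eval u ℓ = 0 := by
  by_contra hcon
  push Not at hcon
  have h1 : ∀ i, e i = algebraMap ℂ E (eval u (g i)) := by
    intro i
    have h2 : g i - C (eval u (g i)) ∈ I := by
      by_contra h3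
      exact hcon _ h3 (by rw [map_sub, eval_C, sub_self])
    have h3 : X i - C (eval u (g i)) ∈ J := by
      rw [hg, map_sub, bind₁_X_right, bind₁_C_right]
      exact h2
    have h4 := (he.ker _).2 h3
    rw [map_sub, aeval_X, aeval_C, sub_eq_zero] at h4
    exact h4
  have h2 : (⊤ : IntermediateField ℂ E) ≤ ⊥ := by
    rw [← he.gen, IntermediateField.adjoin_le_iff]
    rintro _ ⟨i, rfl⟩
    rw [h1 i]
    exact IntermediateField.algebraMap_mem _ _
  have h3 : Algebra.IsAlgebraic ℂ E := by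
    refine ⟨fun z => ?_⟩
    have h4 : z ∈ (⊥ : IntermediateField ℂ E) := h2 IntermediateField.mem_top
    obtain ⟨c, rfl⟩ := IntermediateField.mem_bot.1 h4
    exact isAlgebraic_algebraMap c
  have h4 : Algebra.trdeg ℂ E = 0 := trdeg_eq_zero
  rw [he.dim] at h4
  have h5 : v = 0 := by exact_mod_cast h4
  omega

/-- **Images of affine varieties with dense sequences of points given by linear recurrences.** -/
theorem aff_main {B : Subalgebra ℂ (ℕ → ℂ)} (hB : CoefField B) {d : ℕ} (hd : TrLe B d)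
    (hI : I.IsPrime) {x : ℕ → Fin N → ℂ} (hx : ∀ j, LinRec B fun m => x m j)
    (hX : ∀ m, ∀ F ∈ I, eval (x m) F = 0) (hdense : ∀ F, (∀ m, eval (x m) F = 0) → F ∈ I)
    {g : Fin M → MvPolynomial (Fin N) ℂ} (hg : ∀ G, G ∈ J ↔ bind₁ g G ∈ I) {E : Type} [Field E]
    [Algebra ℂ E] {v : ℕ} {e : Fin M → E} (he : AffField J E v e) (hdv : d < v) :
    GmCovered e ∧ ¬ LogGeneralType ℂ E v fun P : Place ℂ E => ∃ i, e i ≠ 0 ∧ P.ord (e i) < 0 := by
  classical
  have hy := funField he
  obtain ⟨s, n, A, U, Φ, hU, hdet, hΦ⟩ := exists_sys hB (fun j m => x m j) hx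
  let x' : ℕ → Fin (M + 1) → ℂ := fun m => hc fun i => eval (x m) (g i)
  let Φ' : Fin (M + 1) → MvPolynomial (Fin n × Fin n) ℂ := hc fun i => bind₁ Φ (g i)
  have hpt : ∀ᶠ m in atTop, x' (m + s) = pt U Φ' m := by
    filter_upwards [hΦ] with m hm
    funext j
    refine Fin.cases ?_ (fun i => ?_) j
    · change (1 : ℂ) = eval (mv (U m)) 1
      rw [map_one]
    · change eval (x (m + s)) (g i) = eval (mv (U m)) (bind₁ Φ (g i))
      have h1 : x (m + s) = fun j => eval (mv (U m)) (Φ j) := funext hm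
      rw [eval_bind', h1]
  have hev : ∀ (m : ℕ) (H : MvPolynomial (Fin (M + 1)) ℂ),
      eval (x' m) H = eval (x m) (bind₁ g (dh H)) := by
    intro m H
    rw [eval_bind', eval_dh]
  have hval : ∀ H : MvPolynomial (Fin (M + 1)) ℂ,
      W602.GT.val (hc e) H = 0 ↔ bind₁ g (dh H) ∈ I := by
    intro H
    rw [← hg, ← he.ker, aeval_dh]
    rfl
  have hX' : ∀ᶠ m in atTop, ∀ H ∈ pc e, eval (x' m) H = 0 := by
    refine Eventually.of_forall fun m H hH => ?_
    have h1 : pc e ≤ RingHom.ker (eval (x' m)) := by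
      unfold pc
      rw [Ideal.span_le]
      rintro G ⟨-, hG⟩
      change eval (x' m) G = 0
      rw [hev]
      exact hX m _ ((hval G).1 hG)
    exact h1 hH
  have hQ : Hyper B (X 0) x' := by
    refine ⟨Eventually.of_forall fun m => ?_, fun _ => 1, B.one_mem,
      Eventually.of_forall fun m => ?_⟩
    · rw [eval_X]
      exact one_ne_zero
    · rw [eval_X, eval_X]
      change (1 : ℂ) = 1 * 1
      rw [one_mul]
  have hden : TailDense (pc e) x' := by
    intro H hH hz
    apply Ideal.subset_span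
    refine ⟨hH, ?_⟩
    rw [hval]
    choose ℓ hℓ hℓx using fun m => exists_sep he (by omega) hg (x m)
    obtain ⟨m0, hm0⟩ := eventually_atTop.1 hz
    have h1 : (bind₁ g (dh H) * ∏ m ∈ Finset.range m0, ℓ m) ∈ I := by
      refine hdense _ fun m => ?_
      rw [map_mul, map_prod]
      by_cases hm : m0 ≤ m
      · have h2 := hm0 m hm
        rw [hev] at h2
        rw [h2, zero_mul]
      · rw [Finset.prod_eq_zero (Finset.mem_range.2 (not_le.1 hm)) (hℓx m), mul_zero]
    rcases hI.mem_or_mem h1 with h2 | h2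
    · exact h2
    · exfalso
      obtain ⟨m, -, hm⟩ := (Ideal.IsPrime.prod_mem_iff (hp := hI)).1 h2
      exact hℓ m hm
  obtain ⟨r, hr⟩ := main_sys hB hd (isHomogeneous_X _ _) hy hdv A U Φ' hU hdet hpt hX' hQ hden
  refine ⟨gmCovered hy hr, fun hlog => hr ?_⟩
  refine flat_gt hy (isHomogeneous_X _ _) ?_ r
  have h1 : (OffQ (X 0) 1 (hc e) : Place ℂ E → Prop) =
      fun P : Place ℂ E => ∃ i, e i ≠ 0 ∧ P.ord (e i) < 0 := by
    funext P
    have h2 : W602.GT.val (hc e) (X 0 : MvPolynomial (Fin (M + 1)) ℂ) = 1 := by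
      unfold W602.GT.val
      rw [aeval_X]
      rfl
    unfold OffQ
    rw [h2, P.ord_one]
    apply propext
    constructor
    · rintro ⟨j, hj0, hj⟩
      revert hj0 hj
      refine Fin.cases (fun _ hj => ?_) (fun i hj0 hj => ?_) j
      · have h3 : hc e 0 = 1 := rfl
        rw [h3, P.ord_one] at hj
        exact absurd hj (by norm_num)
      · refine ⟨i, hj0, ?_⟩
        change ((1 : ℕ) : ℤ) * P.ord (e i) < 0 at hj
        rwa [Nat.cast_one, one_mul] at hj
    · rintro ⟨i, hi0, hi⟩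
      refine ⟨i.succ, hi0, ?_⟩
      change ((1 : ℕ) : ℤ) * P.ord (e i) < 0
      rwa [Nat.cast_one, one_mul]
  rw [h1]
  exact hlog

end Pool.Agent.X332.OR
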